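import Pool.Agent.U36.TS.Stm

/-!
# Project TS, package K1: the quotient `x = (1 - th m ^ a * y) / (1 - y)`, with a root `x'`
-/

set_option autoImplicit false

namespace Pool.Agent.U36.TS

section k1

variable {M : Type} [Field M]

theorem k1_pow_fix (S : M ≃+* M) {x : M} (h : S x = x) (n : ℕ) : (S ^ n) x = x := by
  induction n with
  | zero => rfl
  | succ n ih => rw [pow_succ, RingAut.mul_apply, h, ih]

theorem k1_pow_eig (S : M ≃+* M) {c g : M} (hc : S c = c) (hg : S g = c * g) (n : ℕ) :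
    (S ^ n) g = c ^ n * g := by
  induction n with
  | zero =>
    rw [pow_zero, pow_zero, one_mul]
    rfl
  | succ n ih =>
    rw [pow_succ, RingAut.mul_apply, hg, map_mul, k1_pow_fix S hc, ih, pow_succ]
    ring

end k1

theorem t_K1 : S_K1 := by
  intro M _ l q th T Ph U hT r m K α j z y hrm hmK hα hz hz1 hTz hy hPy hq hEz hEy
  have hyU : y ∈ U := hT.of_pow y m (by rw [hy]; exact hz)
  have hy1 : 1 - y ∈ U := by
    have h := hT.one_sub y hyU m (by rw [hy]; exact hz1) 0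
    rwa [zpow_zero, one_mul] at h
  obtain ⟨g, hg⟩ := hT.root (1 - y) hy1 K
  have hgU : g ∈ U := hT.of_pow g K (by rw [hg]; exact hy1)
  have hg0 : g ≠ 0 := hT.ne_zero g hgU
  have hy10 : 1 - y ≠ 0 := hT.ne_zero _ hy1
  have hthT : ∀ (k : ℕ) (i : ℤ), T (th k ^ i) = th k ^ i := by
    intro k i
    rw [map_zpow₀, hT.T_fix]
  have hTg0 : T g ≠ 0 := hT.ne_zero _ (hT.T_mem g hgU)
  obtain ⟨n, hn⟩ : ∃ n : ℕ, n = l ^ (m - r) := ⟨_, rfl⟩
  have hnq : n ∣ q - 1 := by
    rw [hn]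
    exact (pow_dvd_pow l (by omega)).trans hq
  obtain ⟨h, hh⟩ : ∃ h : ℕ, h = (q - 1) / n := ⟨_, rfl⟩
  have hnh : n * h = q - 1 := by
    rw [hh]
    exact Nat.mul_div_cancel' hnq
  have hq1 : q = n * h + 1 := by
    have := hT.two
    omega
  have hng : (T ^ n) g = th K ^ j * g := by
    rw [hn]
    exact hEy g hg
  have hnc : (T ^ n) (th K ^ j) = th K ^ j := k1_pow_fix T (hthT K j) n
  have hqg : (T ^ q) g = (th K ^ j) ^ h * T g := by
    rw [hq1, pow_succ', RingAut.mul_apply, pow_mul, k1_pow_eig (T ^ n) hnc hng h, map_mul, map_pow,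
      hthT]
  -- the Frobenius element
  obtain ⟨η, hη⟩ : ∃ η : M, η = Ph g / g := ⟨_, rfl⟩
  have hPg : Ph g = η * g := by
    rw [hη, div_mul_cancel₀ _ hg0]
  have hη1 : η ^ l ^ K = 1 := by
    rw [hη, div_pow, ← map_pow, hg, map_sub, map_one, hPy]
    exact div_self hy10
  have hη0 : η ≠ 0 := by
    intro h0
    rw [h0, zero_pow (pow_ne_zero _ hT.prime.ne_zero)] at hη1
    exact zero_ne_one hη1
  have hl : NeZero (l ^ K) := ⟨pow_ne_zero _ hT.prime.ne_zero⟩
  obtain ⟨i, -, hi⟩ := (hT.prim K).eq_pow_of_pow_eq_one hη1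
  have hTη : T η = η := by
    rw [← hi, map_pow, hT.T_fix]
  refine ⟨T g * g⁻¹, hT.mul _ (hT.T_mem g hgU) _ (hT.inv g hgU), ?_, ?_, ?_⟩
  · have e1 : (T ^ n) (T g) = th K ^ j * T g := by
      have e2 : (T ^ n) (T g) = T ((T ^ n) g) := by
        rw [← RingAut.mul_apply, ← RingAut.mul_apply, ← pow_succ, ← pow_succ']
      rw [e2, hng, map_mul, hthT]
    have h0 : th K ^ j ≠ 0 := zpow_ne_zero _ ((hT.prim K).ne_zero (pow_ne_zero _ hT.prime.ne_zero))
    rw [← hn, map_mul, map_inv₀, e1, hng]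
    field_simp
  · have e1 : Ph (T g) = η * ((th K ^ j) ^ h * T g) := by
      rw [hT.rel, hPg, map_mul, k1_pow_fix T hTη, hqg]
    have e2 : th K ^ (j * (((q - 1) / l ^ (m - r) : ℕ) : ℤ)) = (th K ^ j) ^ h := by
      rw [zpow_mul, zpow_natCast, hh, hn]
    rw [map_mul, map_inv₀, e1, hPg, e2]
    field_simp
  · have e1 : T y = th m ^ ((l : ℤ) ^ r * α) * y := hEz y hy
    have e2 : (T g * g⁻¹) ^ l ^ K = (1 - th m ^ ((l : ℤ) ^ r * α) * y) * (1 - y)⁻¹ := by
      rw [mul_pow, inv_pow, ← map_pow, hg, map_sub, map_one, e1]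
    rw [e2]
    field_simp
    ring

end Pool.Agent.U36.TS
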